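import Pool.Agent.H27.GammaProof

set_option autoImplicit false

namespace Pool.Agent.Results.MP_8f98a9_co.Counter

open Pool.Agent.H27.Gamma

theorem result :
    ¬ ∀ (n : ℕ) (V : Finset (Fin n → ℤ)), 1 ≤ n → affineSpan ℝ (poly V) = ⊤ →
      gammaP (poly V) + 1 ≤ (minLen (poly V) : ℝ) → IntClosed (poly V) := by
  intro h
  refine not_closed (h 3 V0 (by norm_num) full ?_)
  have h1 := gamma_le
  have h2 : (1 : ℝ) ≤ (minLen P0 : ℝ) := by exact_mod_cast minLen_ge
  linarith

end Pool.Agent.Results.MP_8f98a9_co.Counter
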